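import Pool.Agent.W670.ML.Defs

set_option autoImplicit false

namespace Pool.Agent.W796.ML.DI

open NumberField Pool.Agent.W670.ML

theorem first (K L : Type) [Field K] [NumberField K] [Field L] [NumberField L]
    [Algebra K L] : (discr L).natAbs = relDisc K L * (discr K).natAbs ^ Module.finrank K L := by
  unfold relDisc
  exact NumberField.natAbs_discr_eq_absNorm_differentIdeal_mul_natAbs_discr_pow K (𝓞 K) L (𝓞 L)

theorem second (L : Type) [Field L] [NumberField L] [Algebra ℚ L] :
    (discr L).natAbs = relDisc ℚ L := by
  rw [first ℚ L, Rat.numberField_discr]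
  simp

theorem di : S_DI := by
  refine ⟨?_, ?_, ?_⟩
  · intro K L _ _ _ _ _
    exact first K L
  · intro L _ _ _
    exact second L
  · intro K L _ _ _ _ _
    have h := first K L
    have h0 : (discr L).natAbs ≠ 0 := by
      rw [Int.natAbs_ne_zero]
      exact NumberField.discr_ne_zero L
    rcases Nat.eq_zero_or_pos (relDisc K L) with h1 | h1
    · rw [h1, zero_mul] at h
      exact absurd h h0
    · exact h1

end Pool.Agent.W796.ML.DI
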